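import Mathlib
import Pool.Agent.R120.MinOvDef
import Pool.Agent.R120.MinOv2

set_option autoImplicit false

namespace Pool.Agent.Results.MP_d8535d_co.AllLimitsEqual

open Pool.Agent.R120.MinOvDef Filter Topology

/-- All the limits `L(m) = lim p_n(m)`, `m ≥ 1`, exist and are equal. -/
theorem result : ∃ L : ℝ, ∀ m : ℕ, 1 ≤ m → Tendsto (fun n : ℕ => p n m) atTop (𝓝 L) :=
  Pool.Agent.R120.MinOv.main

end Pool.Agent.Results.MP_d8535d_co.AllLimitsEqual
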